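import Pool.Agent.Helper64.IG.Goals

/-! Packet F2: the rank of the pairing. -/

open scoped BigOperators

universe u

namespace Pool.Agent.Helper64.IG.PkF2

open Module

section

variable {K : Type u} [Field K] {p : ℕ}

/-- The span of a list. -/
abbrev sp (L : List (Fin p → K)) : Submodule K (Fin p → K) := Submodule.span K {v | v ∈ L}

theorem sp_append (L M : List (Fin p → K)) : sp (L ++ M) = sp L ⊔ sp M := by
  unfold sp
  rw [← Submodule.span_union]
  congr 1
  ext v
  simp

theorem rkl_eq (L : List (Fin p → K)) : rkl L = finrank K (sp L) := rfl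

theorem li_iff (L : List (Fin p → K)) : LinearIndependent K L.get ↔ L.length = rkl L := by
  rw [linearIndependent_iff_card_eq_finrank_span, Fintype.card_fin, Set.finrank,
    Set.range_list_get]
  rfl

theorem li_cons {v : Fin p → K} {L : List (Fin p → K)} (h : LinearIndependent K L.get)
    (hv : v ∉ sp L) : LinearIndependent K (v :: L).get := by
  have h1 : LinearIndependent K (Fin.cons v L.get : Fin (L.length + 1) → Fin p → K) :=
    linearIndependent_finCons.2 ⟨h, by rwa [Set.range_list_get]⟩
  have h2 : (v :: L).get = (Fin.cons v L.get : Fin (L.length + 1) → Fin p → K) := by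
    funext i
    refine Fin.cases ?_ (fun j => ?_) i
    · rfl
    · rfl
  rw [h2]
  exact h1

/-- Extension to a basis. -/
theorem extend (V : Submodule K (Fin p → K)) : ∀ (n : ℕ) (L : List (Fin p → K)),
    finrank K V - L.length = n → LinearIndependent K L.get → sp L ≤ V →
    ∃ M : List (Fin p → K), sp (M ++ L) = V ∧ (M ++ L).length = finrank K V := by
  intro n
  induction n with
  | zero =>
    intro L hn hL hV
    have h1 := (li_iff L).1 hL
    have h2 : finrank K (sp L) ≤ finrank K V := Submodule.finrank_mono hV
    rw [← rkl_eq, ← h1] at h2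
    refine ⟨[], ?_, ?_⟩
    · show sp L = V
      refine Submodule.eq_of_le_of_finrank_eq hV ?_
      rw [← rkl_eq, ← h1]
      omega
    · show L.length = _
      omega
  | succ n ih =>
    intro L hn hL hV
    have hne : ∃ v ∈ V, v ∉ sp L := by
      by_contra hcon
      push Not at hcon
      have h3 : V ≤ sp L := hcon
      have h4 := Submodule.finrank_mono h3
      rw [← rkl_eq, ← (li_iff L).1 hL] at h4
      omega
    obtain ⟨v, hvV, hvL⟩ := hne
    have h5 : sp (v :: L) ≤ V := by
      refine Submodule.span_le.2 fun x hx => ?_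
      rcases List.mem_cons.1 hx with rfl | hx
      · exact hvV
      · exact hV (Submodule.subset_span hx)
    obtain ⟨M, hM1, hM2⟩ := ih (v :: L) (by rw [List.length_cons]; omega) (li_cons hL hvL) h5
    refine ⟨M ++ [v], ?_, ?_⟩
    · rw [List.append_assoc]; exact hM1
    · rw [List.append_assoc]; exact hM2

theorem bases (F C B : List (Fin p → K)) (hC : LinearIndependent K C.get)
    (hp : rkl (F ++ C ++ B) = p) :
    ∃ u0 W v0 : List (Fin p → K), LinearIndependent K (u0 ++ W ++ C ++ v0).get ∧
      (u0 ++ W ++ C ++ v0).length = p ∧ sp ((u0 ++ W) ++ C) = sp (F ++ C) ∧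
      sp ((W ++ v0) ++ C) = sp (B ++ C) ∧
      W.length = rkl (F ++ C) + rkl (C ++ B) - C.length - p := by
  have hCB : sp (C ++ B) = sp (B ++ C) := by rw [sp_append, sp_append, sup_comm]
  have hle1 : sp C ≤ sp (F ++ C) ⊓ sp (C ++ B) := by
    rw [sp_append, sp_append]
    exact le_inf le_sup_right le_sup_left
  obtain ⟨W, hW1, hW2⟩ := extend (sp (F ++ C) ⊓ sp (C ++ B)) _ C rfl hC hle1
  have hWli : LinearIndependent K (W ++ C).get := by
    rw [li_iff, rkl_eq, hW1]; exact hW2
  obtain ⟨u0, hu1, hu2⟩ := extend (sp (F ++ C)) _ (W ++ C) rfl hWli (by rw [hW1]; exact inf_le_left)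
  obtain ⟨v0, hv1, hv2⟩ := extend (sp (C ++ B)) _ (W ++ C) rfl hWli
    (by rw [hW1]; exact inf_le_right)
  have hsup : sp (F ++ C) ⊔ sp (C ++ B) = sp (F ++ C ++ B) := by
    simp only [sp_append]
    rw [sup_assoc, sup_assoc, ← sup_assoc (sp C) (sp C), sup_idem]
  have hdim := Submodule.finrank_sup_add_finrank_inf_eq (sp (F ++ C)) (sp (C ++ B))
  rw [hsup, ← rkl_eq, hp, ← rkl_eq, ← rkl_eq, ← hW2] at hdim
  rw [← rkl_eq] at hu2 hv2
  simp only [List.length_append] at hdim hu2 hv2
  have hlen : (u0 ++ W ++ C ++ v0).length = p := by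
    simp only [List.length_append]
    omega
  have hspan : sp (u0 ++ W ++ C ++ v0) = sp (F ++ C ++ B) := by
    rw [← hsup, ← hu1, ← hv1]
    simp only [sp_append]
    apply le_antisymm
    · refine sup_le (sup_le (sup_le ?_ ?_) ?_) ?_
      · exact le_sup_of_le_left le_sup_left
      · exact le_sup_of_le_left (le_sup_of_le_right le_sup_left)
      · exact le_sup_of_le_left (le_sup_of_le_right le_sup_right)
      · exact le_sup_of_le_right le_sup_left
    · refine sup_le (sup_le ?_ (sup_le ?_ ?_)) (sup_le ?_ (sup_le ?_ ?_))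
      · exact le_sup_of_le_left (le_sup_of_le_left le_sup_left)
      · exact le_sup_of_le_left (le_sup_of_le_left le_sup_right)
      · exact le_sup_of_le_left le_sup_right
      · exact le_sup_right
      · exact le_sup_of_le_left (le_sup_of_le_left le_sup_right)
      · exact le_sup_of_le_left le_sup_right
  refine ⟨u0, W, v0, ?_, hlen, ?_, ?_, ?_⟩
  · rw [li_iff, hlen, rkl_eq, hspan, ← rkl_eq, hp]
  · rw [List.append_assoc]; exact hu1
  · rw [← hCB, ← hv1]
    simp only [sp_append]
    rw [sup_comm (sp W) (sp v0), sup_assoc]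
  · omega

/-! ### Column and row spaces -/

/-- The column space. -/
def colsp (F C B : List (Fin p → K)) : Submodule K (List Bool → K) :=
  Submodule.span K {g : List Bool → K | ∃ S : List Bool, S.length = B.length ∧
      g = fun bs => if bs.length = F.length then dl (sel F bs ++ C ++ sel B S) else 0}

/-- The row space. -/
def rowsp (F C B : List (Fin p → K)) : Submodule K (List Bool → K) :=
  Submodule.span K {g : List Bool → K | ∃ I : List Bool, I.length = F.length ∧
      g = fun J => if J.length = B.length then dl (sel F I ++ C ++ sel B J) else 0}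

/-- Evaluation at the selected sublists of `F`. -/
def evm (F : List (Fin p → K)) : (List (Fin p → K) → K) →ₗ[K] (List Bool → K) where
  toFun h := fun bs => if bs.length = F.length then h (sel F bs) else 0
  map_add' f g := by
    funext bs
    by_cases h : bs.length = F.length <;> simp [h]
  map_smul' c f := by
    funext bs
    by_cases h : bs.length = F.length <;> simp [h]

theorem sel_mem {α : Type*} : ∀ (l : List α) (b : List Bool), ∀ v ∈ sel l b, v ∈ l
  | [], b => by cases b <;> simp [sel]
  | a :: l, [] => by simp [sel]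
  | a :: l, true :: b => by
    intro v hv
    rw [sel, List.mem_cons] at hv
    rcases hv with rfl | hv
    · exact List.mem_cons_self
    · exact List.mem_cons_of_mem _ (sel_mem l b v hv)
  | a :: l, false :: b => by
    intro v hv
    rw [sel] at hv
    exact List.mem_cons_of_mem _ (sel_mem l b v hv)

theorem colsp_le (spi : G_SPI.{u}) (F C B B' : List (Fin p → K))
    (h : sp (B ++ C) ≤ sp (B' ++ C)) : colsp F C B ≤ colsp F C B' := by
  refine Submodule.span_le.2 ?_
  rintro g ⟨S, hS, rfl⟩
  have h1 := (spi K p B' C (sel B S) (fun v hv => h (Submodule.subset_span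
    (List.mem_append_left _ (sel_mem B S v hv))))).2
  have h2 := Submodule.mem_map_of_mem (f := evm F) h1
  rw [Submodule.map_span] at h2
  refine Submodule.span_mono ?_ h2
  rintro _ ⟨_, ⟨S', hS', rfl⟩, rfl⟩
  exact ⟨S', hS', rfl⟩

theorem rowsp_le (spi : G_SPI.{u}) (F F' C B : List (Fin p → K))
    (h : sp (F ++ C) ≤ sp (F' ++ C)) : rowsp F C B ≤ rowsp F' C B := by
  refine Submodule.span_le.2 ?_
  rintro g ⟨S, hS, rfl⟩
  have h1 := (spi K p F' C (sel F S) (fun v hv => h (Submodule.subset_span
    (List.mem_append_left _ (sel_mem F S v hv))))).1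
  have h2 := Submodule.mem_map_of_mem (f := evm B) h1
  rw [Submodule.map_span] at h2
  refine Submodule.span_mono ?_ h2
  rintro _ ⟨_, ⟨S', hS', rfl⟩, rfl⟩
  exact ⟨S', hS', rfl⟩

end

section

variable {K : Type u} [Field K]

/-- Extension by zero. -/
noncomputable def ez (n : ℕ) : ({l : List Bool // l.length = n} → K) →ₗ[K] (List Bool → K) where
  toFun f := fun bs => if h : bs.length = n then f ⟨bs, h⟩ else 0
  map_add' f g := by
    funext bs
    by_cases h : bs.length = n <;> simp [h]
  map_smul' c f := by
    funext bs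
    by_cases h : bs.length = n <;> simp [h]

theorem ez_inj (n : ℕ) : Function.Injective (ez (K := K) n) := by
  intro f g h
  funext l
  have := congrFun h l.1
  simpa [ez, l.2] using this

theorem fr_ez (n m : ℕ) (M : List Bool → List Bool → K) :
    finrank K (Submodule.span K {g : List Bool → K | ∃ S : List Bool, S.length = m ∧
      g = fun bs => if bs.length = n then M bs S else 0}) =
    finrank K (Submodule.span K (Set.range
      (fun (S : {l : List Bool // l.length = m}) (b : {l : List Bool // l.length = n}) =>
        M b.1 S.1))) := by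
  have h1 : Submodule.span K {g : List Bool → K | ∃ S : List Bool, S.length = m ∧
      g = fun bs => if bs.length = n then M bs S else 0} =
      (Submodule.span K (Set.range
      (fun (S : {l : List Bool // l.length = m}) (b : {l : List Bool // l.length = n}) =>
        M b.1 S.1))).map (ez n) := by
    rw [Submodule.map_span]
    congr 1
    ext g
    constructor
    · rintro ⟨S, hS, rfl⟩
      refine ⟨_, ⟨⟨S, hS⟩, rfl⟩, ?_⟩
      funext bs
      by_cases h : bs.length = n <;> simp [ez, h]
    · rintro ⟨_, ⟨S, rfl⟩, rfl⟩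
      refine ⟨S.1, S.2, ?_⟩
      funext bs
      by_cases h : bs.length = n <;> simp [ez, h]
  rw [h1]
  exact (Submodule.equivMapOfInjective (ez n) (ez_inj n) _).finrank_eq.symm

instance (n : ℕ) : Fintype {l : List Bool // l.length = n} :=
  inferInstanceAs (Fintype (List.Vector Bool n))

theorem transp (n m : ℕ) (M : List Bool → List Bool → K) :
    finrank K (Submodule.span K {g : List Bool → K | ∃ S : List Bool, S.length = m ∧
      g = fun bs => if bs.length = n then M bs S else 0}) =
    finrank K (Submodule.span K {g : List Bool → K | ∃ I : List Bool, I.length = n ∧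
      g = fun J => if J.length = m then M I J else 0}) := by
  rw [fr_ez n m M, fr_ez m n (fun a b => M b a)]
  let A : Matrix {l : List Bool // l.length = n} {l : List Bool // l.length = m} K :=
    Matrix.of fun b S => M b.1 S.1
  have h1 := Matrix.rank_eq_finrank_span_cols A
  have h2 := Matrix.rank_eq_finrank_span_cols A.transpose
  rw [Matrix.rank_transpose] at h2
  exact h1.symm.trans h2

end

/-- Packet F2. -/
theorem f2 (spi : G_SPI.{u}) (pair : G_PAIR.{u}) : G_F2.{u} := by
  intro K _ p F C B hC hp
  obtain ⟨u0, W, v0, hli, hlen, hu, hv, hW⟩ := bases F C B hC hp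
  have e1 : colsp F C B = colsp F C (W ++ v0) :=
    le_antisymm (colsp_le spi F C B (W ++ v0) hv.ge) (colsp_le spi F C (W ++ v0) B hv.le)
  have e2 : rowsp F C (W ++ v0) = rowsp (u0 ++ W) C (W ++ v0) :=
    le_antisymm (rowsp_le spi F (u0 ++ W) C (W ++ v0) hu.ge)
      (rowsp_le spi (u0 ++ W) F C (W ++ v0) hu.le)
  have e3 : finrank K (colsp F C (W ++ v0)) = finrank K (rowsp F C (W ++ v0)) :=
    transp F.length (W ++ v0).length (fun bs S => dl (sel F bs ++ C ++ sel (W ++ v0) S))
  have e4 : finrank K (rowsp (u0 ++ W) C (W ++ v0)) = 2 ^ W.length :=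
    pair K p u0 W C v0 hli hlen
  have e5 : finrank K (colsp F C B) = 2 ^ (rkl (F ++ C) + rkl (C ++ B) - C.length - p) := by
    rw [e1, e3, e2, e4, hW]
  exact e5

end Pool.Agent.Helper64.IG.PkF2
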