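import Pool.Agent.Helper64.IG.Goals

/-! Packet MIN: minors. -/

open scoped BigOperators

universe u

namespace Pool.Agent.Helper64.IG.PkMIN

open Module

theorem decPull {E E' : Type*} [DecidableEq E] [DecidableEq E'] (ι : E' → E)
    (hι : Function.Injective ι) (lam : Finset E → ℕ) (lam' : Finset E' → ℕ)
    (h : ∀ X : Finset E, lam' (X.preimage ι hι.injOn) ≤ lam X) (w : ℕ) (X : Finset E)
    (hX : Dec lam w X) : (X.preimage ι hι.injOn).Nonempty →
      Dec lam' w (X.preimage ι hι.injOn) := by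
  induction hX with
  | single e he =>
    rintro ⟨e', he'⟩
    rw [Finset.mem_preimage, Finset.mem_singleton] at he'
    have h1 : ({e} : Finset E).preimage ι hι.injOn = {e'} := by
      ext y
      rw [Finset.mem_preimage, Finset.mem_singleton, Finset.mem_singleton, ← he']
      exact hι.eq_iff
    have h2 := h {e}
    rw [h1] at h2 ⊢
    exact Dec.single e' (h2.trans he)
  | join A B hd hA hB hl ihA ihB =>
    intro hne
    have h1 : (A ∪ B).preimage ι hι.injOn = A.preimage ι hι.injOn ∪ B.preimage ι hι.injOn := by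
      ext y
      simp only [Finset.mem_preimage, Finset.mem_union]
    have h2 := h (A ∪ B)
    rw [h1] at h2 ⊢
    rcases (A.preimage ι hι.injOn).eq_empty_or_nonempty with hA0 | hA0
    · rw [h1, hA0, Finset.empty_union] at hne
      rw [hA0, Finset.empty_union]
      exact ihB hne
    rcases (B.preimage ι hι.injOn).eq_empty_or_nonempty with hB0 | hB0
    · rw [hB0, Finset.union_empty]
      exact ihA hA0
    refine Dec.join _ _ ?_ (ihA hA0) (ihB hB0) (h2.trans hl)
    rw [Finset.disjoint_left]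
    intro y hy1 hy2
    exact (Finset.disjoint_left.1 hd) (Finset.mem_preimage.1 hy1) (Finset.mem_preimage.1 hy2)

section

variable {K : Type u} [Field K] {n p : ℕ}

theorem inc_inj {m q : ℕ} (hn : n ≤ m) (hp : p ≤ q) :
    Function.Injective (inc hn hp : Ix n p → Ix m q) :=
  Function.Injective.sumMap (Fin.castLE_injective hn) (Fin.castLE_injective hp)

theorem le_rk (ω : Form K n p) (X : Finset (Ix n p)) (a : Fin p → Ix n p) (ha : ω a ≠ 0) :
    (Finset.univ.filter fun j => a j ∈ X).card ≤ rk ω X := by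
  classical
  unfold rk
  exact Finset.le_sup (f := fun a : Fin p → Ix n p => (Finset.univ.filter fun j => a j ∈ X).card)
    (Finset.mem_filter.2 ⟨Finset.mem_univ a, ha⟩)

theorem rk_le (ω : Form K n p) (X : Finset (Ix n p)) (r : ℕ)
    (h : ∀ a, ω a ≠ 0 → (Finset.univ.filter fun j => a j ∈ X).card ≤ r) : rk ω X ≤ r := by
  classical
  unfold rk
  exact Finset.sup_le fun a ha => h a (Finset.mem_filter.1 ha).2

theorem rk_xi (ω : Form K (n + 1) p) (X : Finset (Ix (n + 1) p)) :
    rk (xi ω) (X.preimage _ (inc_inj (Nat.le_succ n) le_rfl).injOn) ≤ rk ω X := by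
  refine rk_le _ _ _ fun a ha => ?_
  refine le_trans (le_of_eq ?_) (le_rk ω X _ ha)
  congr 1
  ext j
  simp only [Finset.mem_filter, Finset.mem_preimage, Function.comp_apply]

theorem conn_xi (ω : Form K (n + 1) p) (X : Finset (Ix (n + 1) p)) :
    conn (xi ω) (X.preimage _ (inc_inj (Nat.le_succ n) le_rfl).injOn) ≤ conn ω X := by
  have h1 := rk_xi ω X
  have h2 := rk_xi ω Xᶜ
  have h3 : (Xᶜ).preimage _ (inc_inj (Nat.le_succ n) (le_refl p)).injOn =
      (X.preimage _ (inc_inj (Nat.le_succ n) le_rfl).injOn)ᶜ := by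
    ext y
    simp only [Finset.mem_preimage, Finset.mem_compl]
  rw [h3] at h2
  unfold conn
  omega

theorem rk_theta (ω : Form K n (p + 1)) (X : Finset (Ix n (p + 1)))
    (hne : ∃ a, theta ω a ≠ 0) :
    rk (theta ω) (X.preimage _ (inc_inj le_rfl (Nat.le_succ p)).injOn) +
      (if (Sum.inr (Fin.last p) : Ix n (p + 1)) ∈ X then 1 else 0) ≤ rk ω X := by
  have key : ∀ a, theta ω a ≠ 0 → (Finset.univ.filter fun j => a j ∈
      X.preimage _ (inc_inj (le_refl n) (Nat.le_succ p)).injOn).card +
      (if (Sum.inr (Fin.last p) : Ix n (p + 1)) ∈ X then 1 else 0) ≤ rk ω X := by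
    intro a ha
    refine le_trans (le_of_eq ?_) (le_rk ω X _ ha)
    rw [Finset.card_filter, Finset.card_filter, Fin.sum_univ_succ, add_comm]
    congr 1
    refine Finset.sum_congr rfl fun i _ => ?_
    simp only [Finset.mem_preimage, Fin.cons_succ, Function.comp_apply]
  by_cases hx : (Sum.inr (Fin.last p) : Ix n (p + 1)) ∈ X
  · rw [if_pos hx] at key ⊢
    obtain ⟨a0, ha0⟩ := hne
    have h1 := key a0 ha0
    have h2 : rk (theta ω) (X.preimage _ (inc_inj le_rfl (Nat.le_succ p)).injOn) ≤ rk ω X - 1 :=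
      rk_le _ _ _ fun a ha => by have := key a ha; omega
    omega
  · rw [if_neg hx] at key ⊢
    exact rk_le _ _ _ key

theorem conn_theta (ω : Form K n (p + 1)) (X : Finset (Ix n (p + 1))) :
    conn (theta ω) (X.preimage _ (inc_inj le_rfl (Nat.le_succ p)).injOn) ≤ conn ω X := by
  by_cases hne : ∃ a, theta ω a ≠ 0
  · have h1 := rk_theta ω X hne
    have h2 := rk_theta ω Xᶜ hne
    have h3 : (Xᶜ).preimage _ (inc_inj (le_refl n) (Nat.le_succ p)).injOn =
        (X.preimage _ (inc_inj le_rfl (Nat.le_succ p)).injOn)ᶜ := by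
      ext y
      simp only [Finset.mem_preimage, Finset.mem_compl]
    rw [h3] at h2
    unfold conn
    by_cases hx : (Sum.inr (Fin.last p) : Ix n (p + 1)) ∈ X
    · rw [if_pos hx] at h1
      omega
    · rw [if_pos (Finset.mem_compl.2 hx)] at h2
      omega
  · push Not at hne
    have h1 : ∀ Y, rk (theta ω) Y ≤ 0 := fun Y => rk_le _ _ _ fun a ha => absurd (hne a) ha
    have h2 := h1 (X.preimage _ (inc_inj le_rfl (Nat.le_succ p)).injOn)
    have h3 := h1 (X.preimage _ (inc_inj le_rfl (Nat.le_succ p)).injOn)ᶜ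
    unfold conn
    omega

end

theorem preimage_univ' {E E' : Type*} [Fintype E] [Fintype E'] [DecidableEq E] [DecidableEq E']
    (ι : E' → E) (hι : Function.Injective ι) :
    (Finset.univ : Finset E).preimage ι hι.injOn = Finset.univ := by
  ext y
  simp

/-- Packet MIN. -/
theorem mn : G_MIN.{u} := by
  intro K _ w n p hn hp
  refine ⟨fun ω h => ?_, fun ω h => ?_⟩
  · have h1 := decPull (inc (Nat.le_succ n) (le_refl p)) (inc_inj _ _) (conn ω) (conn (xi ω))
      (conn_xi ω) w Finset.univ h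
    rw [preimage_univ' _ (inc_inj (Nat.le_succ n) (le_refl p))] at h1
    exact h1 ⟨Sum.inl ⟨0, hn⟩, Finset.mem_univ _⟩
  · have h1 := decPull (inc (le_refl n) (Nat.le_succ p)) (inc_inj _ _) (conn ω) (conn (theta ω))
      (conn_theta ω) w Finset.univ h
    rw [preimage_univ' _ (inc_inj (le_refl n) (Nat.le_succ p))] at h1
    exact h1 ⟨Sum.inl ⟨0, hn⟩, Finset.mem_univ _⟩

end Pool.Agent.Helper64.IG.PkMIN
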